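import Mathlib
import Pool.Agent.H17.Vald3

set_option autoImplicit false

namespace Pool.Agent.Results.MP_42f98c_gt.NoInvariant

/-- A is a Sigma-subset of K. -/
def IsSigma {K : Type} [TopologicalSpace K] (A : Set K) : Prop :=
  ∃ (Γ : Type) (φ : K → Γ → ℝ), Topology.IsEmbedding φ ∧ A = φ ⁻¹' {x | {γ | x γ ≠ 0}.Countable}

theorem result : ∃ (K : Type) (_ : TopologicalSpace K), CompactSpace K ∧ T2Space K ∧
    (∃ A : Set K, IsSigma A ∧ Dense A) ∧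
    ∃ G : Subgroup (K ≃ₜ K), Finite G ∧ (∀ g ∈ G, ∀ k ∈ G, g * k = k * g) ∧
      ∀ A : Set K, IsSigma A → Dense A → ¬ ∀ g ∈ G, g '' A ⊆ A := by
  obtain ⟨φ, h1, h2⟩ := H17.Vald.KK_vald
  let h : H17.Vald.KK ≃ₜ H17.Vald.KK :=
    ⟨⟨H17.Vald.inv, H17.Vald.inv, H17.Vald.inv_inv, H17.Vald.inv_inv⟩, H17.Vald.inv_cont,
      H17.Vald.inv_cont⟩
  refine ⟨H17.Vald.KK, inferInstance, inferInstance, inferInstance, ⟨_, ⟨_, φ, h1, rfl⟩, h2⟩,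
    Subgroup.zpowers h, ?_, ?_, ?_⟩
  · apply finite_zpowers.2
    refine isOfFinOrder_iff_pow_eq_one.2 ⟨2, two_pos, ?_⟩
    ext1 x
    exact H17.Vald.inv_inv x
  · rintro _ ⟨m, rfl⟩ _ ⟨n, rfl⟩
    exact (Commute.zpow_zpow_self h m n).eq
  · rintro _ ⟨Γ, e, c, rfl⟩ a b
    exact H17.Vald.KK_no e c a fun x hx => b h (Subgroup.mem_zpowers h) ⟨x, hx, rfl⟩

end Pool.Agent.Results.MP_42f98c_gt.NoInvariant
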